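import Pool.Agent.H.MP_fcbc3e_an.B

namespace Pool.Agent.Results.MP_fcbc3e_an.No

open Pool.Agent.H.MP_07ea7a_an Pool.Agent.H.MP_fcbc3e_an
open scoped ContDiff

theorem result (𝕂 : Type) [RCLike 𝕂] : ∃ (Ω : Set (Fin 3 → ℝ)) (w : (Fin 3 → ℝ) → 𝕂)
    (ψ : (Fin 3 → ℝ) → Fin 3 → ℝ), IsOpen Ω ∧ Ω.Nonempty ∧ ContDiffOn ℝ ∞ w Ω ∧
    ContDiffOn ℝ ∞ ψ Ω ∧ Set.MapsTo ψ Ω Ω ∧ Super Ω w ψ ∧ ¬ (Trans Ω w ψ ∧ DensePer Ω w ψ) := by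
  have H := nice 𝕂
  refine ⟨Om, fun _ => 1, ps, H.op, ⟨fun _ => 1, Or.inl one_pos⟩, H.sw, H.sψ, H.mp,
    super H runaway, fun h => ?_⟩
  obtain ⟨K, h1, h2, h3⟩ := not_strong
  exact h3 ((strong H h.1 h.2 h1 h2).mono fun m hm h4 => h4 hm)

end Pool.Agent.Results.MP_fcbc3e_an.No
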